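import Mathlib

/-!
# Definitions: free lattices of varieties of lattices
-/

namespace Pool.Agent.Y787.FV

universe u v w

/-- Lattice terms with variables from `X`. -/
inductive Term (X : Type w) : Type w
  | var : X → Term X
  | sup : Term X → Term X → Term X
  | inf : Term X → Term X → Term X

/-- The value of a term in a lattice `L` when the variable `x` gets the value `f x`. -/
def Term.ev {X : Type w} {L : Type v} [Lattice L] (f : X → L) : Term X → L
  | .var x => f x
  | .sup s t => Term.ev f s ⊔ Term.ev f t
  | .inf s t => Term.ev f s ⊓ Term.ev f t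

/-- The lattice `L` satisfies all the identities `s = t` with `(s, t)` in `E`; the terms `s` and
`t` have their variables in `ℕ`. The lattices satisfying `E` form a variety of lattices. -/
def Satisfies (E : Set (Term ℕ × Term ℕ)) (L : Type w) [Lattice L] : Prop :=
  ∀ e ∈ E, ∀ f : ℕ → L, Term.ev f e.1 = Term.ev f e.2

/-- `F`, with the map `ι : X → F`, is a free lattice on the set `X` in the variety of all lattices
which satisfy the identities `E`: `F` satisfies `E`, it is generated by the elements `ι x`, and
every map from `X` into a lattice `L` that satisfies `E` extends to a lattice homomorphism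
`F → L`. -/
structure IsFreeIn (E : Set (Term ℕ × Term ℕ)) {X F : Type w} [Lattice F] (ι : X → F) : Prop where
  mem : Satisfies E F
  generated : ∀ S : Sublattice F, (∀ x, ι x ∈ S) → ∀ a, a ∈ S
  extends_map : ∀ (L : Type w) [Lattice L], Satisfies E L → ∀ f : X → L,
    ∃ g : LatticeHom F L, ∀ x, g (ι x) = f x

/-- `F`, with the map `ι : X → F`, is a relatively free lattice: `F` is generated by the elements
`ι x`, and every map `X → F` extends to an endomorphism of `F`. -/
structure IsRelativelyFree {X F : Type w} [Lattice F] (ι : X → F) : Prop where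
  generated : ∀ S : Sublattice F, (∀ x, ι x ∈ S) → ∀ a, a ∈ S
  extends_map : ∀ f : X → F, ∃ g : LatticeHom F F, ∀ x, g (ι x) = f x

/-- The strict order of `P` is the union of a point-finite set of complete rectangles: there is a
set `C` of pairs `(D, U)` of subsets of `P` such that every element of `D` lies strictly below
every element of `U`, each comparable pair `p < q` is covered by some `(D, U)` in `C`, and each
element of `P` is used by only finitely many members of `C`. -/
def HasPointFiniteCover (P : Type u) [PartialOrder P] : Prop :=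
  ∃ C : Set (Set P × Set P),
    (∀ R ∈ C, ∀ d ∈ R.1, ∀ e ∈ R.2, d < e) ∧
    (∀ p q : P, p < q → ∃ R ∈ C, p ∈ R.1 ∧ q ∈ R.2) ∧
    (∀ p : P, {R ∈ C | p ∈ R.1 ∨ p ∈ R.2}.Finite)

/-- Existence of free lattices in every variety. -/
def t_EX : Prop := ∀ (E : Set (Term.{0} ℕ × Term.{0} ℕ)) (X : Type w),
  ∃ (F : Type w) (_ : Lattice F) (ι : X → F), IsFreeIn E ι

/-- Sufficiency. -/
def t_SU : Prop := ∀ (P : Type u) [PartialOrder P], (¬ ∃ a b c : P, a < b ∧ b < c) →
  HasPointFiniteCover P →
  ∀ (X F : Type w) [Lattice F] (ι : X → F), IsRelativelyFree ι → Nontrivial F → Infinite X →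
    ∀ j : P → X, Function.Injective j → ∃ φ : P → F, ∀ p q : P, p ≤ q ↔ φ p ≤ φ q

/-- Necessity. -/
def t_NE : Prop := ∀ (P : Type u) [PartialOrder P]
  (X F : Type w) [Lattice F] (ι : X → F), IsRelativelyFree ι →
    ∀ φ : P → F, (∀ p q : P, p ≤ q ↔ φ p ≤ φ q) → HasPointFiniteCover P

end Pool.Agent.Y787.FV
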