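import Pool.Agent.Y787.FV.NE
import Pool.Agent.Y765.FV.EX
import Pool.Agent.Y970.FV.SU

/-!
# Bipartite posets in the free lattices of a variety
-/

namespace Pool.Agent.Y787.FV

universe u v w

/-- `F`, with the map `ι : X → F`, is a free lattice on the set `X`: `F` is generated by the
elements `ι x`, and every map from `X` into any lattice `L` extends to a lattice homomorphism
`F → L`. -/
structure IsFreeLattice {X F : Type w} [Lattice F] (ι : X → F) : Prop where
  generated : ∀ S : Sublattice F, (∀ x, ι x ∈ S) → ∀ a, a ∈ S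
  extends_map : ∀ (L : Type w) [Lattice L] (f : X → L), ∃ g : LatticeHom F L, ∀ x, g (ι x) = f x

theorem IsFreeIn.rel {E : Set (Term.{0} ℕ × Term.{0} ℕ)} {X F : Type w} [Lattice F] {ι : X → F}
    (h : IsFreeIn E ι) : IsRelativelyFree ι :=
  ⟨h.generated, fun f => h.extends_map F h.mem f⟩

theorem IsFreeLattice.rel {X F : Type w} [Lattice F] {ι : X → F}
    (h : IsFreeLattice ι) : IsRelativelyFree ι :=
  ⟨h.generated, fun f => h.extends_map F f⟩

theorem IsFreeIn.free {X F : Type w} [Lattice F] {ι : X → F}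
    (h : IsFreeIn (∅ : Set (Term.{0} ℕ × Term.{0} ℕ)) ι) : IsFreeLattice ι :=
  ⟨h.generated, fun L _ f => h.extends_map L (fun e he => absurd he (Set.notMem_empty e)) f⟩

/-- A nontrivial variety contains the lattice with two elements. -/
theorem satisfies_two {E : Set (Term.{0} ℕ × Term.{0} ℕ)} {L : Type v} [Lattice L] [Nontrivial L]
    (h : Satisfies E L) : Satisfies E (ULift.{w} Prop) := by
  classical
  obtain ⟨x, y, hxy⟩ := exists_pair_ne L
  have hlt : x ⊓ y < x ⊔ y := lt_of_le_of_ne (inf_le_left.trans le_sup_left)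
    (fun hh => hxy (inf_eq_sup.1 hh))
  obtain ⟨k0, ht, hf⟩ : ∃ k0 : Prop → L, (∀ c, c → k0 c = x ⊔ y) ∧ (∀ c, ¬ c → k0 c = x ⊓ y) :=
    ⟨fun c => if c then x ⊔ y else x ⊓ y, fun c hc => if_pos hc, fun c hc => if_neg hc⟩
  let k : LatticeHom (ULift.{w} Prop) L :=
    { toFun := fun c => k0 c.down
      map_sup' := by
        rintro ⟨c⟩ ⟨d⟩
        change k0 (c ∨ d) = k0 c ⊔ k0 d
        by_cases hc : c
        · by_cases hd : d
          · rw [ht _ (Or.inl hc), ht _ hc, ht _ hd, sup_idem]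
          · rw [ht _ (Or.inl hc), ht _ hc, hf _ hd, sup_eq_left.2 hlt.le]
        · by_cases hd : d
          · rw [ht _ (Or.inr hd), hf _ hc, ht _ hd, sup_eq_right.2 hlt.le]
          · rw [hf _ (fun h => h.elim hc hd), hf _ hc, hf _ hd, sup_idem]
      map_inf' := by
        rintro ⟨c⟩ ⟨d⟩
        change k0 (c ∧ d) = k0 c ⊓ k0 d
        by_cases hc : c
        · by_cases hd : d
          · rw [ht _ ⟨hc, hd⟩, ht _ hc, ht _ hd, inf_idem]
          · rw [hf _ (fun h => hd h.2), ht _ hc, hf _ hd, inf_eq_right.2 hlt.le]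
        · by_cases hd : d
          · rw [hf _ (fun h => hc h.1), hf _ hc, ht _ hd, inf_eq_left.2 hlt.le]
          · rw [hf _ (fun h => hc h.1), hf _ hc, hf _ hd, inf_idem] }
  have hk : Function.Injective k := by
    rintro ⟨c⟩ ⟨d⟩ hcd
    have hcd' : k0 c = k0 d := hcd
    by_cases hc : c <;> by_cases hd : d
    · simp [hc, hd]
    · rw [ht _ hc, hf _ hd] at hcd'
      exact absurd hcd' hlt.ne'
    · rw [hf _ hc, ht _ hd] at hcd'
      exact absurd hcd' hlt.ne
    · simp [hc, hd]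
  intro e he f
  apply hk
  rw [hom_ev, hom_ev]
  exact h e he _

theorem IsFreeIn.nontrivial {E : Set (Term.{0} ℕ × Term.{0} ℕ)} {X F : Type w} [Lattice F]
    {ι : X → F} (h : IsFreeIn E ι) {L : Type v} [Lattice L] [Nontrivial L] (hL : Satisfies E L)
    {x y : X} (hxy : x ≠ y) : Nontrivial F := by
  obtain ⟨g, hg⟩ := h.extends_map (ULift.{w} Prop) (satisfies_two hL) (fun z => ⟨z = x⟩)
  refine ⟨⟨ι x, ι y, fun he => ?_⟩⟩
  have h1 := hg x
  have h2 := hg y
  rw [← he, h1] at h2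
  have h3 : (x = x) = (y = x) := congrArg ULift.down h2
  exact hxy (h3 ▸ rfl : y = x).symm

/-- Existence of embeddings for a nontrivial variety. -/
theorem exists_embedding (P : Type u) [PartialOrder P] (hP : ¬ ∃ a b c : P, a < b ∧ b < c)
    (hC : HasPointFiniteCover P) (E : Set (Term.{0} ℕ × Term.{0} ℕ)) {L : Type v} [Lattice L]
    [Nontrivial L] (hL : Satisfies E L) :
    ∃ (X F : Type (max u w)) (_ : Lattice F) (ι : X → F), IsFreeIn E ι ∧
      ∃ φ : P → F, ∀ p q : P, p ≤ q ↔ φ p ≤ φ q := by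
  obtain ⟨F, _, ι, hF⟩ := Pool.Agent.Y765.FV.ex.{max u w} E (ULift.{w} (P ⊕ ℕ))
  have hn : (⟨.inr 0⟩ : ULift.{w} (P ⊕ ℕ)) ≠ ⟨.inr 1⟩ := by
    intro h
    have := ULift.up_injective h
    simp at this
  have hinf : Infinite (ULift.{w} (P ⊕ ℕ)) :=
    Infinite.of_injective (fun n : ℕ => (⟨.inr n⟩ : ULift.{w} (P ⊕ ℕ)))
      (fun a b h => Sum.inr_injective (ULift.up_injective h))
  refine ⟨ULift.{w} (P ⊕ ℕ), F, inferInstance, ι, hF, ?_⟩
  exact Pool.Agent.Y970.FV.su.{u, max u w} P hP hC _ F ι hF.rel (hF.nontrivial hL hn) hinf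
    (fun p => ⟨.inl p⟩) (fun a b h => Sum.inl_injective (ULift.up_injective h))

end Pool.Agent.Y787.FV
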