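import Pool.Agent.Y787.FV.Main
import Pool.Agent.Y903.FV.BE
import Pool.Agent.Y569.FV.BN
import Pool.Agent.Y185.FV.BS

/-!
# Bipartite posets in free Boolean algebras
-/

namespace Pool.Agent.Y787.FV

universe u v w

theorem exists_embedding_boolean (P : Type u) [PartialOrder P]
    (hP : ¬ ∃ a b c : P, a < b ∧ b < c) (hC : HasPointFiniteCover P) :
    ∃ (X F : Type (max u w)) (_ : BooleanAlgebra F) (ι : X → F), IsFreeBoolean ι ∧
      ∃ φ : P → F, ∀ p q : P, p ≤ q ↔ φ p ≤ φ q := by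
  obtain ⟨F, _, ι, hF⟩ := Pool.Agent.Y903.FV.be.{max u w} (ULift.{w} (P ⊕ ℕ))
  have hinf : Infinite (ULift.{w} (P ⊕ ℕ)) :=
    Infinite.of_injective (fun n : ℕ => (⟨.inr n⟩ : ULift.{w} (P ⊕ ℕ)))
      (fun a b h => Sum.inr_injective (ULift.up_injective h))
  refine ⟨ULift.{w} (P ⊕ ℕ), F, inferInstance, ι, hF, ?_⟩
  exact Pool.Agent.Y185.FV.bs.{u, max u w} P hP hC _ F ι hF hinf
    (fun p => ⟨.inl p⟩) (fun a b h => Sum.inl_injective (ULift.up_injective h))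

end Pool.Agent.Y787.FV
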