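import Pool.Agent.Y787.FV.Stm

/-!
# Necessity: interpolation in relatively free lattices
-/

namespace Pool.Agent.Y787.FV

universe u v w

/-- From point-finite families of pairs with `D r ≤ U r` to a point-finite set of rectangles. -/
theorem cover_of {P : Type u} [PartialOrder P] {J : Type w} (D U : J → Set P)
    (h1 : ∀ r, ∀ d ∈ D r, ∀ e ∈ U r, d ≤ e)
    (h2 : ∀ p q : P, p < q → ∃ r, p ∈ D r ∧ q ∈ U r)
    (h3 : ∀ p : P, {r | p ∈ D r ∨ p ∈ U r}.Finite) : HasPointFiniteCover P := by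
  let K : J × Bool → Set P × Set P := fun rb =>
    if rb.2 then (D rb.1, U rb.1 \ D rb.1) else (D rb.1 \ U rb.1, U rb.1)
  refine ⟨Set.range K, ?_, ?_, ?_⟩
  · rintro _ ⟨⟨r, b⟩, rfl⟩ d hd e he
    cases b with
    | true =>
      have hd' : d ∈ D r := hd
      have he' : e ∈ U r := he.1
      have hne : e ∉ D r := he.2
      refine lt_of_le_of_ne (h1 r d hd' e he') ?_
      rintro rfl
      exact hne hd'
    | false =>
      have hd' : d ∈ D r := hd.1
      have hne : d ∉ U r := hd.2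
      have he' : e ∈ U r := he
      refine lt_of_le_of_ne (h1 r d hd' e he') ?_
      rintro rfl
      exact hne he'
  · intro p q hpq
    obtain ⟨r, hr1, hr2⟩ := h2 p q hpq
    by_cases hq : q ∈ D r
    · refine ⟨K (r, false), ⟨_, rfl⟩, ⟨hr1, ?_⟩, hr2⟩
      intro hp
      exact absurd (h1 r q hq p hp) (not_le_of_gt hpq)
    · exact ⟨K (r, true), ⟨_, rfl⟩, hr1, hr2, hq⟩
  · intro p
    have hfin : (K '' ({r | p ∈ D r ∨ p ∈ U r} ×ˢ (Set.univ : Set Bool))).Finite :=
      ((h3 p).prod Set.finite_univ).image K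
    refine hfin.subset ?_
    rintro _ ⟨⟨⟨r, b⟩, rfl⟩, hp⟩
    refine ⟨(r, b), ⟨?_, trivial⟩, rfl⟩
    cases b with
    | true =>
      rcases hp with hp | hp
      · exact Or.inl hp
      · exact Or.inr hp.1
    | false =>
      rcases hp with hp | hp
      · exact Or.inl hp.1
      · exact Or.inr hp

/-- A countable subset of a lattice lies in a countable sublattice. -/
theorem countable_closure {L : Type v} [Lattice L] (G : Set L) (hG : G.Countable) :
    ∃ V : Set L, V.Countable ∧ G ⊆ V ∧ (∀ a ∈ V, ∀ b ∈ V, a ⊔ b ∈ V) ∧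
      (∀ a ∈ V, ∀ b ∈ V, a ⊓ b ∈ V) := by
  let W : ℕ → Set L := fun n => Nat.rec G
    (fun _ A => A ∪ (Set.image2 (· ⊔ ·) A A ∪ Set.image2 (· ⊓ ·) A A)) n
  have hW0 : W 0 = G := rfl
  have hWs : ∀ n, W (n + 1) = W n ∪ (Set.image2 (· ⊔ ·) (W n) (W n) ∪
      Set.image2 (· ⊓ ·) (W n) (W n)) := fun n => rfl
  have hmono : Monotone W := monotone_nat_of_le_succ (fun n => by
    rw [hWs]; exact Set.subset_union_left)
  refine ⟨⋃ n, W n, ?_, ?_, ?_, ?_⟩
  · refine Set.countable_iUnion (fun n => ?_)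
    induction n with
    | zero => exact hG
    | succ n ih =>
      rw [hWs]
      exact ih.union ((ih.image2 ih _).union (ih.image2 ih _))
  · intro a ha
    exact Set.mem_iUnion.2 ⟨0, ha⟩
  · intro a ha b hb
    obtain ⟨m, hm⟩ := Set.mem_iUnion.1 ha
    obtain ⟨n, hn⟩ := Set.mem_iUnion.1 hb
    have h1 := hmono (le_max_left m n) hm
    have h2 := hmono (le_max_right m n) hn
    refine Set.mem_iUnion.2 ⟨max m n + 1, ?_⟩
    rw [hWs]
    exact Or.inr (Or.inl ⟨a, h1, b, h2, rfl⟩)
  · intro a ha b hb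
    obtain ⟨m, hm⟩ := Set.mem_iUnion.1 ha
    obtain ⟨n, hn⟩ := Set.mem_iUnion.1 hb
    have h1 := hmono (le_max_left m n) hm
    have h2 := hmono (le_max_right m n) hn
    refine Set.mem_iUnion.2 ⟨max m n + 1, ?_⟩
    rw [hWs]
    exact Or.inr (Or.inr ⟨a, h1, b, h2, rfl⟩)

theorem ev_mem {X : Type w} {L : Type v} [Lattice L] (V : Set L)
    (h1 : ∀ a ∈ V, ∀ b ∈ V, a ⊔ b ∈ V) (h2 : ∀ a ∈ V, ∀ b ∈ V, a ⊓ b ∈ V)
    (f : X → L) (hf : ∀ x, f x ∈ V) (t : Term X) : Term.ev f t ∈ V := by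
  induction t with
  | var x => exact hf x
  | sup s t hs ht => exact h1 _ hs _ ht
  | inf s t hs ht => exact h2 _ hs _ ht

/-- The variables of a term. -/
def vars {X : Type w} [DecidableEq X] : Term X → Finset X
  | .var x => {x}
  | .sup s t => vars s ∪ vars t
  | .inf s t => vars s ∪ vars t

section

variable {X F : Type w} [Lattice F] [DecidableEq X]

theorem ev_mono_on {L : Type v} [Lattice L] (t : Term X) (f g : X → L)
    (h : ∀ x ∈ vars t, f x ≤ g x) : Term.ev f t ≤ Term.ev g t := by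
  induction t with
  | var x => exact h x (by simp [vars])
  | sup s t hs ht =>
    exact sup_le_sup (hs (fun x hx => h x (Finset.mem_union_left _ hx)))
      (ht (fun x hx => h x (Finset.mem_union_right _ hx)))
  | inf s t hs ht =>
    exact inf_le_inf (hs (fun x hx => h x (Finset.mem_union_left _ hx)))
      (ht (fun x hx => h x (Finset.mem_union_right _ hx)))

theorem ev_const {L : Type v} [Lattice L] (t : Term X) (f : X → L) (b : L)
    (h : ∀ x ∈ vars t, f x = b) : Term.ev f t = b := by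
  induction t with
  | var x => exact h x (by simp [vars])
  | sup s t hs ht =>
    change Term.ev f s ⊔ Term.ev f t = b
    rw [hs (fun x hx => h x (Finset.mem_union_left _ hx)),
      ht (fun x hx => h x (Finset.mem_union_right _ hx)), sup_idem]
  | inf s t hs ht =>
    change Term.ev f s ⊓ Term.ev f t = b
    rw [hs (fun x hx => h x (Finset.mem_union_left _ hx)),
      ht (fun x hx => h x (Finset.mem_union_right _ hx)), inf_idem]

theorem hom_ev {L : Type v} {M : Type u} [Lattice L] [Lattice M] (g : LatticeHom L M)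
    {Y : Type w} (f : Y → L) (t : Term Y) : g (Term.ev f t) = Term.ev (fun x => g (f x)) t := by
  induction t with
  | var x => rfl
  | sup s t hs ht =>
    change g (Term.ev f s ⊔ Term.ev f t) = _
    rw [map_sup, hs, ht]; rfl
  | inf s t hs ht =>
    change g (Term.ev f s ⊓ Term.ev f t) = _
    rw [map_inf, hs, ht]; rfl

theorem coe_top_ev (f : X → F) (t : Term X) :
    ((Term.ev f t : F) : WithTop F) = Term.ev (fun x => (f x : WithTop F)) t := by
  induction t with
  | var x => rfl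
  | sup s t hs ht =>
    change ((Term.ev f s ⊔ Term.ev f t : F) : WithTop F) = _
    rw [WithTop.coe_sup, hs, ht]; rfl
  | inf s t hs ht =>
    change ((Term.ev f s ⊓ Term.ev f t : F) : WithTop F) = _
    rw [WithTop.coe_inf, hs, ht]; rfl

theorem coe_bot_ev (f : X → F) (t : Term X) :
    ((Term.ev f t : F) : WithBot F) = Term.ev (fun x => (f x : WithBot F)) t := by
  induction t with
  | var x => rfl
  | sup s t hs ht =>
    change ((Term.ev f s ⊔ Term.ev f t : F) : WithBot F) = _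
    rw [WithBot.coe_sup, hs, ht]; rfl
  | inf s t hs ht =>
    change ((Term.ev f s ⊓ Term.ev f t : F) : WithBot F) = _
    rw [WithBot.coe_inf, hs, ht]; rfl

/-- Variables outside `S` are replaced by the top element. -/
def fT (ι : X → F) (S : Finset X) : X → WithTop F := fun x => if x ∈ S then (ι x : WithTop F) else ⊤

/-- Variables outside `S` are replaced by the bottom element. -/
def fB (ι : X → F) (S : Finset X) : X → WithBot F := fun x => if x ∈ S then (ι x : WithBot F) else ⊥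

theorem le_evT (ι : X → F) (S : Finset X) (t : Term X) :
    ((Term.ev ι t : F) : WithTop F) ≤ Term.ev (fT ι S) t := by
  rw [coe_top_ev]
  refine ev_mono_on t _ _ (fun x _ => ?_)
  unfold fT
  split_ifs
  · exact le_rfl
  · exact le_top

theorem evB_le (ι : X → F) (S : Finset X) (t : Term X) :
    Term.ev (fB ι S) t ≤ ((Term.ev ι t : F) : WithBot F) := by
  rw [coe_bot_ev]
  refine ev_mono_on t _ _ (fun x _ => ?_)
  unfold fB
  split_ifs
  · exact le_rfl
  · exact bot_le

theorem evT_cases (ι G : X → F) (S : Finset X) (c : F) (t : Term X)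
    (h1 : ∀ x ∈ vars t, ι x ≤ c) (h2 : ∀ x ∈ vars t, x ∈ S → G x = ι x)
    (h3 : ∀ x ∈ vars t, x ∉ S → G x = c) :
    (∃ a : F, Term.ev (fT ι S) t = a ∧ Term.ev G t = a ∧ a ≤ c) ∨
      (Term.ev (fT ι S) t = ⊤ ∧ Term.ev G t = c ∧ ∃ x ∈ vars t, x ∉ S) := by
  induction t with
  | var x =>
    have hx : x ∈ vars (Term.var x) := by simp [vars]
    by_cases hS : x ∈ S
    · left
      exact ⟨ι x, by simp [Term.ev, fT, hS], h2 x hx hS, h1 x hx⟩
    · right
      exact ⟨by simp [Term.ev, fT, hS], h3 x hx hS, x, hx, hS⟩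
  | sup s t hs ht =>
    have hs' := hs (fun x hx => h1 x (Finset.mem_union_left _ hx))
      (fun x hx => h2 x (Finset.mem_union_left _ hx))
      (fun x hx => h3 x (Finset.mem_union_left _ hx))
    have ht' := ht (fun x hx => h1 x (Finset.mem_union_right _ hx))
      (fun x hx => h2 x (Finset.mem_union_right _ hx))
      (fun x hx => h3 x (Finset.mem_union_right _ hx))
    have e1 : Term.ev (fT ι S) (.sup s t) = Term.ev (fT ι S) s ⊔ Term.ev (fT ι S) t := rfl
    have e2 : Term.ev G (.sup s t) = Term.ev G s ⊔ Term.ev G t := rfl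
    rcases hs' with ⟨a, ha1, ha2, ha3⟩ | ⟨ha1, ha2, x, hx, hxS⟩
    · rcases ht' with ⟨b, hb1, hb2, hb3⟩ | ⟨hb1, hb2, y, hy, hyS⟩
      · left
        refine ⟨a ⊔ b, ?_, ?_, sup_le ha3 hb3⟩
        · rw [e1, ha1, hb1, WithTop.coe_sup]
        · rw [e2, ha2, hb2]
      · right
        refine ⟨?_, ?_, y, Finset.mem_union_right _ hy, hyS⟩
        · rw [e1, hb1, sup_top_eq]
        · rw [e2, ha2, hb2, sup_eq_right.2 ha3]
    · right
      refine ⟨?_, ?_, x, Finset.mem_union_left _ hx, hxS⟩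
      · rw [e1, ha1, top_sup_eq]
      · rcases ht' with ⟨b, hb1, hb2, hb3⟩ | ⟨hb1, hb2, _⟩
        · rw [e2, ha2, hb2, sup_eq_left.2 hb3]
        · rw [e2, ha2, hb2, sup_idem]
  | inf s t hs ht =>
    have hs' := hs (fun x hx => h1 x (Finset.mem_union_left _ hx))
      (fun x hx => h2 x (Finset.mem_union_left _ hx))
      (fun x hx => h3 x (Finset.mem_union_left _ hx))
    have ht' := ht (fun x hx => h1 x (Finset.mem_union_right _ hx))
      (fun x hx => h2 x (Finset.mem_union_right _ hx))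
      (fun x hx => h3 x (Finset.mem_union_right _ hx))
    have e1 : Term.ev (fT ι S) (.inf s t) = Term.ev (fT ι S) s ⊓ Term.ev (fT ι S) t := rfl
    have e2 : Term.ev G (.inf s t) = Term.ev G s ⊓ Term.ev G t := rfl
    rcases hs' with ⟨a, ha1, ha2, ha3⟩ | ⟨ha1, ha2, x, hx, hxS⟩
    · rcases ht' with ⟨b, hb1, hb2, hb3⟩ | ⟨hb1, hb2, _⟩
      · left
        refine ⟨a ⊓ b, ?_, ?_, inf_le_left.trans ha3⟩
        · rw [e1, ha1, hb1, WithTop.coe_inf]
        · rw [e2, ha2, hb2]
      · left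
        refine ⟨a, ?_, ?_, ha3⟩
        · rw [e1, ha1, hb1, inf_top_eq]
        · rw [e2, ha2, hb2, inf_eq_left.2 ha3]
    · rcases ht' with ⟨b, hb1, hb2, hb3⟩ | ⟨hb1, hb2, _⟩
      · left
        refine ⟨b, ?_, ?_, hb3⟩
        · rw [e1, ha1, hb1, top_inf_eq]
        · rw [e2, ha2, hb2, inf_eq_right.2 hb3]
      · right
        refine ⟨?_, ?_, x, Finset.mem_union_left _ hx, hxS⟩
        · rw [e1, ha1, hb1, top_inf_eq]
        · rw [e2, ha2, hb2, inf_idem]

theorem evB_cases (ι G : X → F) (S : Finset X) (c : F) (t : Term X)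
    (h1 : ∀ x ∈ vars t, c ≤ ι x) (h2 : ∀ x ∈ vars t, x ∈ S → G x = ι x)
    (h3 : ∀ x ∈ vars t, x ∉ S → G x = c) :
    (∃ a : F, Term.ev (fB ι S) t = a ∧ Term.ev G t = a ∧ c ≤ a) ∨
      (Term.ev (fB ι S) t = ⊥ ∧ Term.ev G t = c ∧ ∃ x ∈ vars t, x ∉ S) := by
  induction t with
  | var x =>
    have hx : x ∈ vars (Term.var x) := by simp [vars]
    by_cases hS : x ∈ S
    · left
      exact ⟨ι x, by simp [Term.ev, fB, hS], h2 x hx hS, h1 x hx⟩
    · right
      exact ⟨by simp [Term.ev, fB, hS], h3 x hx hS, x, hx, hS⟩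
  | inf s t hs ht =>
    have hs' := hs (fun x hx => h1 x (Finset.mem_union_left _ hx))
      (fun x hx => h2 x (Finset.mem_union_left _ hx))
      (fun x hx => h3 x (Finset.mem_union_left _ hx))
    have ht' := ht (fun x hx => h1 x (Finset.mem_union_right _ hx))
      (fun x hx => h2 x (Finset.mem_union_right _ hx))
      (fun x hx => h3 x (Finset.mem_union_right _ hx))
    have e1 : Term.ev (fB ι S) (.inf s t) = Term.ev (fB ι S) s ⊓ Term.ev (fB ι S) t := rfl
    have e2 : Term.ev G (.inf s t) = Term.ev G s ⊓ Term.ev G t := rfl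
    rcases hs' with ⟨a, ha1, ha2, ha3⟩ | ⟨ha1, ha2, x, hx, hxS⟩
    · rcases ht' with ⟨b, hb1, hb2, hb3⟩ | ⟨hb1, hb2, y, hy, hyS⟩
      · left
        refine ⟨a ⊓ b, ?_, ?_, le_inf ha3 hb3⟩
        · rw [e1, ha1, hb1, WithBot.coe_inf]
        · rw [e2, ha2, hb2]
      · right
        refine ⟨?_, ?_, y, Finset.mem_union_right _ hy, hyS⟩
        · rw [e1, hb1, inf_bot_eq]
        · rw [e2, ha2, hb2, inf_eq_right.2 ha3]
    · right
      refine ⟨?_, ?_, x, Finset.mem_union_left _ hx, hxS⟩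
      · rw [e1, ha1, bot_inf_eq]
      · rcases ht' with ⟨b, hb1, hb2, hb3⟩ | ⟨hb1, hb2, _⟩
        · rw [e2, ha2, hb2, inf_eq_left.2 hb3]
        · rw [e2, ha2, hb2, inf_idem]
  | sup s t hs ht =>
    have hs' := hs (fun x hx => h1 x (Finset.mem_union_left _ hx))
      (fun x hx => h2 x (Finset.mem_union_left _ hx))
      (fun x hx => h3 x (Finset.mem_union_left _ hx))
    have ht' := ht (fun x hx => h1 x (Finset.mem_union_right _ hx))
      (fun x hx => h2 x (Finset.mem_union_right _ hx))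
      (fun x hx => h3 x (Finset.mem_union_right _ hx))
    have e1 : Term.ev (fB ι S) (.sup s t) = Term.ev (fB ι S) s ⊔ Term.ev (fB ι S) t := rfl
    have e2 : Term.ev G (.sup s t) = Term.ev G s ⊔ Term.ev G t := rfl
    rcases hs' with ⟨a, ha1, ha2, ha3⟩ | ⟨ha1, ha2, x, hx, hxS⟩
    · rcases ht' with ⟨b, hb1, hb2, hb3⟩ | ⟨hb1, hb2, _⟩
      · left
        refine ⟨a ⊔ b, ?_, ?_, ha3.trans le_sup_left⟩
        · rw [e1, ha1, hb1, WithBot.coe_sup]
        · rw [e2, ha2, hb2]
      · left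
        refine ⟨a, ?_, ?_, ha3⟩
        · rw [e1, ha1, hb1, sup_bot_eq]
        · rw [e2, ha2, hb2, sup_eq_left.2 ha3]
    · rcases ht' with ⟨b, hb1, hb2, hb3⟩ | ⟨hb1, hb2, _⟩
      · left
        refine ⟨b, ?_, ?_, hb3⟩
        · rw [e1, ha1, hb1, bot_sup_eq]
        · rw [e2, ha2, hb2, sup_eq_right.2 hb3]
      · right
        refine ⟨?_, ?_, x, Finset.mem_union_left _ hx, hxS⟩
        · rw [e1, ha1, hb1, bot_sup_eq]
        · rw [e2, ha2, hb2, sup_idem]

/-- Interpolation over the common variables. -/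
theorem interpolate {ι : X → F} (hF : IsRelativelyFree ι) (hN : ¬ ∀ a b : F, a ≤ b)
    (s t : Term X) (hst : Term.ev ι s ≤ Term.ev ι t) :
    ∃ a b : F, Term.ev (fT ι (vars s ∩ vars t)) s = a ∧
      Term.ev (fB ι (vars s ∩ vars t)) t = b ∧ a ≤ b := by
  classical
  obtain ⟨c, hc⟩ : ∃ c : F, ∀ x ∈ vars s, ι x ≤ c := by
    have : Nonempty F := ⟨Term.ev ι s⟩
    obtain ⟨M, hM⟩ := Finset.exists_le ((vars s).image ι)
    exact ⟨M, fun x hx => hM _ (Finset.mem_image_of_mem _ hx)⟩
  obtain ⟨d, hd⟩ : ∃ d : F, ∀ x ∈ vars t, d ≤ ι x := by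
    have : Nonempty F := ⟨Term.ev ι s⟩
    obtain ⟨M, hM⟩ := ((vars t).image ι).bddBelow
    exact ⟨M, fun x hx => hM (Finset.mem_coe.2 (Finset.mem_image_of_mem _ hx))⟩
  obtain ⟨g, hg⟩ := hF.extends_map (fun x => if x ∈ vars s ∩ vars t then ι x else
    if x ∈ vars s then c else d)
  let G : X → F := fun x => g (ι x)
  have hG : ∀ x, G x = if x ∈ vars s ∩ vars t then ι x else if x ∈ vars s then c else d :=
    fun x => hg x
  have hle : Term.ev G s ≤ Term.ev G t := by
    have := OrderHomClass.mono g hst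
    rwa [hom_ev, hom_ev] at this
  have hs := evT_cases ι G (vars s ∩ vars t) c s hc
    (fun x _ hS => by rw [hG, if_pos hS])
    (fun x hx hS => by rw [hG, if_neg hS, if_pos hx])
  have ht := evB_cases ι G (vars s ∩ vars t) d t hd
    (fun x _ hS => by rw [hG, if_pos hS])
    (fun x hx hS => by
      rw [hG, if_neg hS, if_neg (fun hx' => hS (Finset.mem_inter.2 ⟨hx', hx⟩))])
  have hGs : Term.ev ι s ≤ Term.ev G s := by
    refine ev_mono_on s _ _ (fun x hx => ?_)
    rw [hG]
    by_cases hS : x ∈ vars s ∩ vars t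
    · rw [if_pos hS]
    · rw [if_neg hS, if_pos hx]; exact hc x hx
  have hGt : Term.ev G t ≤ Term.ev ι t := by
    refine ev_mono_on t _ _ (fun x hx => ?_)
    rw [hG]
    by_cases hS : x ∈ vars s ∩ vars t
    · rw [if_pos hS]
    · rw [if_neg hS, if_neg (fun hx' => hS (Finset.mem_inter.2 ⟨hx', hx⟩))]; exact hd x hx
  rcases hs with ⟨a, ha1, ha2, ha3⟩ | ⟨ha1, ha2, x, hx, hxS⟩
  · rcases ht with ⟨b, hb1, hb2, hb3⟩ | ⟨hb1, hb2, y, hy, hyS⟩
    · refine ⟨a, b, ha1, hb1, ?_⟩
      rwa [ha2, hb2] at hle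
    · exfalso
      apply hN
      intro a' b'
      have hys : y ∉ vars s := fun h => hyS (Finset.mem_inter.2 ⟨h, hy⟩)
      have h1 : Term.ev ι s ≤ ι y := (hGs.trans (hle.trans hb2.le)).trans (hd y hy)
      obtain ⟨k, hk⟩ := hF.extends_map (fun x => if x = y then b' else a')
      have h2 := OrderHomClass.mono k h1
      rw [hom_ev, hk y, if_pos rfl, ev_const s _ a'] at h2
      · exact h2
      · intro x hx
        change k (ι x) = a'
        rw [hk, if_neg]
        rintro rfl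
        exact hys hx
  · exfalso
    apply hN
    intro a' b'
    have hxt : x ∉ vars t := fun h => hxS (Finset.mem_inter.2 ⟨hx, h⟩)
    have h1 : ι x ≤ Term.ev ι t := (hc x hx).trans ((ha2.ge.trans hle).trans hGt)
    obtain ⟨k, hk⟩ := hF.extends_map (fun z => if z = x then a' else b')
    have h2 := OrderHomClass.mono k h1
    rw [hom_ev, hk x, if_pos rfl, ev_const t _ b'] at h2
    · exact h2
    · intro z hz
      change k (ι z) = b'
      rw [hk, if_neg]
      rintro rfl
      exact hxt hz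

end

theorem exists_term {X F : Type w} [Lattice F] {ι : X → F} (hF : IsRelativelyFree ι) (a : F) :
    ∃ t : Term X, Term.ev ι t = a := by
  let S : Sublattice F :=
    { carrier := {a | ∃ t : Term X, Term.ev ι t = a}
      supClosed' := by
        rintro _ ⟨s, rfl⟩ _ ⟨t, rfl⟩
        exact ⟨.sup s t, rfl⟩
      infClosed' := by
        rintro _ ⟨s, rfl⟩ _ ⟨t, rfl⟩
        exact ⟨.inf s t, rfl⟩ }
  exact hF.generated S (fun x => ⟨.var x, rfl⟩) a

theorem finite_of_injOn {A : Type v} {V : Set A} {e : A → ℕ} (he : Set.InjOn e V) (n : ℕ) :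
    {x | x ∈ V ∧ e x ≤ n}.Finite := by
  have h1 : (e '' {x | x ∈ V ∧ e x ≤ n}).Finite := by
    refine (Set.finite_Iic n).subset ?_
    rintro _ ⟨x, hx, rfl⟩
    exact hx.2
  exact Set.Finite.of_finite_image h1 (fun x hx y hy h => he hx.1 hy.1 h)

theorem ne : t_NE.{u, w} := by
  classical
  intro P _ X F _ ι hF φ hφ
  choose τ hτ using fun p : P => exists_term hF (φ p)
  have hV : ∀ S : Finset X, ∃ (V : Set (WithTop F)) (e : WithTop F → ℕ), Set.InjOn e V ∧
      ∀ t : Term X, Term.ev (fT ι S) t ∈ V := by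
    intro S
    obtain ⟨V, hV1, hV2, hV3, hV4⟩ := countable_closure (Set.range (fT ι S)) (by
      refine Set.Finite.countable ?_
      refine (((S.image (fun x => (ι x : WithTop F)) : Finset (WithTop F)).finite_toSet).union
        (Set.finite_singleton ⊤)).subset ?_
      rintro _ ⟨x, rfl⟩
      by_cases hx : x ∈ S
      · left
        have : fT ι S x = (ι x : WithTop F) := by simp [fT, hx]
        rw [this]
        exact Finset.mem_coe.2 (Finset.mem_image_of_mem (fun x => (ι x : WithTop F)) hx)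
      · right
        simp [fT, hx])
    obtain ⟨e, he⟩ := Set.countable_iff_exists_injOn.1 hV1
    exact ⟨V, e, he, ev_mem V hV3 hV4 _ (fun x => hV2 ⟨x, rfl⟩)⟩
  have hV' : ∀ S : Finset X, ∃ (V : Set (WithBot F)) (e : WithBot F → ℕ), Set.InjOn e V ∧
      ∀ t : Term X, Term.ev (fB ι S) t ∈ V := by
    intro S
    obtain ⟨V, hV1, hV2, hV3, hV4⟩ := countable_closure (Set.range (fB ι S)) (by
      refine Set.Finite.countable ?_
      refine (((S.image (fun x => (ι x : WithBot F)) : Finset (WithBot F)).finite_toSet).union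
        (Set.finite_singleton ⊥)).subset ?_
      rintro _ ⟨x, rfl⟩
      by_cases hx : x ∈ S
      · left
        have : fB ι S x = (ι x : WithBot F) := by simp [fB, hx]
        rw [this]
        exact Finset.mem_coe.2 (Finset.mem_image_of_mem (fun x => (ι x : WithBot F)) hx)
      · right
        simp [fB, hx])
    obtain ⟨e, he⟩ := Set.countable_iff_exists_injOn.1 hV1
    exact ⟨V, e, he, ev_mem V hV3 hV4 _ (fun x => hV2 ⟨x, rfl⟩)⟩
  choose V e he hmem using hV
  choose V' e' he' hmem' using hV'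
  let α : Finset X → P → WithTop F := fun S p => Term.ev (fT ι S) (τ p)
  let β : Finset X → P → WithBot F := fun S p => Term.ev (fB ι S) (τ p)
  let R : WithTop F → WithBot F → Prop := fun x y => ∃ a b : F, x = a ∧ y = b ∧ a ≤ b
  have hα : ∀ S p, ((φ p : F) : WithTop F) ≤ α S p := by
    intro S p
    have := le_evT ι S (τ p)
    rwa [hτ] at this
  have hβ : ∀ S p, β S p ≤ ((φ p : F) : WithBot F) := by
    intro S p
    have := evB_le ι S (τ p)
    rwa [hτ] at this
  have hsound : ∀ S p q, R (α S p) (β S q) → p ≤ q := by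
    rintro S p q ⟨a, b, ha, hb, hab⟩
    have h1 := hα S p
    have h2 := hβ S q
    rw [ha, WithTop.coe_le_coe] at h1
    rw [hb, WithBot.coe_le_coe] at h2
    exact (hφ p q).2 (h1.trans (hab.trans h2))
  let D : (Finset X × WithTop F) ⊕ (Finset X × WithBot F) → Set P := fun r =>
    match r with
    | .inl (S, x) => {p | S ⊆ vars (τ p) ∧ α S p = x}
    | .inr (S, y) => {p | S ⊆ vars (τ p) ∧ y ∈ V' S ∧ R (α S p) y ∧ e' S y ≤ e S (α S p)}
  let U : (Finset X × WithTop F) ⊕ (Finset X × WithBot F) → Set P := fun r =>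
    match r with
    | .inl (S, x) => {q | S ⊆ vars (τ q) ∧ x ∈ V S ∧ R x (β S q) ∧ e S x ≤ e' S (β S q)}
    | .inr (S, y) => {q | S ⊆ vars (τ q) ∧ β S q = y}
  refine cover_of D U ?_ ?_ ?_
  · rintro (⟨S, x⟩ | ⟨S, y⟩) p hp q hq
    · obtain ⟨_, hp2⟩ := hp
      obtain ⟨_, _, hq3, _⟩ := hq
      rw [← hp2] at hq3
      exact hsound S p q hq3
    · obtain ⟨_, _, hp3, _⟩ := hp
      obtain ⟨_, hq2⟩ := hq
      rw [← hq2] at hp3
      exact hsound S p q hp3
  · intro p q hpq
    have hN : ¬ ∀ a b : F, a ≤ b := fun h => absurd ((hφ q p).2 (h _ _)) (not_le_of_gt hpq)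
    have hle : Term.ev ι (τ p) ≤ Term.ev ι (τ q) := by
      rw [hτ, hτ]; exact (hφ p q).1 hpq.le
    obtain ⟨a, b, ha, hb, hab⟩ := interpolate hF hN (τ p) (τ q) hle
    let S : Finset X := vars (τ p) ∩ vars (τ q)
    have hR : R (α S p) (β S q) := ⟨a, b, ha, hb, hab⟩
    rcases le_total (e S (α S p)) (e' S (β S q)) with h | h
    · exact ⟨.inl (S, α S p), ⟨Finset.inter_subset_left, rfl⟩,
        ⟨Finset.inter_subset_right, hmem S _, hR, h⟩⟩
    · exact ⟨.inr (S, β S q), ⟨Finset.inter_subset_left, hmem' S _, hR, h⟩,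
        ⟨Finset.inter_subset_right, rfl⟩⟩
  · intro p
    have hfin : (⋃ S ∈ (vars (τ p)).powerset,
        (((({α S p} : Set (WithTop F)) ∪ {x | x ∈ V S ∧ e S x ≤ e' S (β S p)}).image
          (fun x => (Sum.inl (S, x) : (Finset X × WithTop F) ⊕ (Finset X × WithBot F)))) ∪
        ((({β S p} : Set (WithBot F)) ∪ {y | y ∈ V' S ∧ e' S y ≤ e S (α S p)}).image
          (fun y => (Sum.inr (S, y) :
            (Finset X × WithTop F) ⊕ (Finset X × WithBot F)))))).Finite := by
      refine Set.Finite.biUnion (Finset.finite_toSet _) (fun S _ => ?_)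
      exact (((Set.finite_singleton _).union (finite_of_injOn (he S) _)).image _).union
        (((Set.finite_singleton _).union (finite_of_injOn (he' S) _)).image _)
    refine hfin.subset ?_
    rintro (⟨S, x⟩ | ⟨S, y⟩) (h | h)
    · exact Set.mem_biUnion (Finset.mem_powerset.2 h.1)
        (Or.inl ⟨x, Or.inl h.2.symm, rfl⟩)
    · exact Set.mem_biUnion (Finset.mem_powerset.2 h.1)
        (Or.inl ⟨x, Or.inr ⟨h.2.1, h.2.2.2⟩, rfl⟩)
    · exact Set.mem_biUnion (Finset.mem_powerset.2 h.1)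
        (Or.inr ⟨y, Or.inr ⟨h.2.1, h.2.2.2⟩, rfl⟩)
    · exact Set.mem_biUnion (Finset.mem_powerset.2 h.1)
        (Or.inr ⟨y, Or.inl h.2.symm, rfl⟩)

end Pool.Agent.Y787.FV
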