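import Pool.Agent.Y787.FV.NE

/-!
# Definitions: free Boolean algebras
-/

namespace Pool.Agent.Y787.FV

universe u v w

/-- `F`, with the map `ι : X → F`, is a free Boolean algebra on the set `X`: it is generated by
the elements `ι x`, and every map from `X` into a Boolean algebra `B` extends to a homomorphism
`F → B`. -/
structure IsFreeBoolean {X F : Type w} [BooleanAlgebra F] (ι : X → F) : Prop where
  generated : ∀ S : BooleanSubalgebra F, (∀ x, ι x ∈ S) → ∀ a, a ∈ S
  extends_map : ∀ (B : Type w) [BooleanAlgebra B] (f : X → B),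
    ∃ g : BoundedLatticeHom F B, ∀ x, g (ι x) = f x

/-- Existence of free Boolean algebras. -/
def t_BE : Prop := ∀ X : Type w,
  ∃ (F : Type w) (_ : BooleanAlgebra F) (ι : X → F), IsFreeBoolean ι

/-- Necessity for free Boolean algebras. -/
def t_BN : Prop := ∀ (P : Type u) [PartialOrder P]
  (X F : Type w) [BooleanAlgebra F] (ι : X → F), IsFreeBoolean ι →
    ∀ φ : P → F, (∀ p q : P, p ≤ q ↔ φ p ≤ φ q) → HasPointFiniteCover P

/-- Sufficiency for free Boolean algebras. -/
def t_BS : Prop := ∀ (P : Type u) [PartialOrder P], (¬ ∃ a b c : P, a < b ∧ b < c) →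
  HasPointFiniteCover P →
  ∀ (X F : Type w) [BooleanAlgebra F] (ι : X → F), IsFreeBoolean ι → Infinite X →
    ∀ j : P → X, Function.Injective j → ∃ φ : P → F, ∀ p q : P, p ≤ q ↔ φ p ≤ φ q

end Pool.Agent.Y787.FV
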